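import Mathlib

/-!
# Initial parts of the elements of an ideal: finitely many suffice for all weights
-/

set_option autoImplicit false

open MvPolynomial Finset Filter
open scoped Classical

namespace Pool.Agent.H84.VA

variable {K : Type*} [Field K] {N : ℕ}

/-- the weight of an exponent -/
def wt (w : Fin N → ℤ) (m : Fin N →₀ ℕ) : ℤ := ∑ i, w i * m i

/-- the part of a polynomial with exponents in `A` -/
noncomputable def part (g : MvPolynomial (Fin N) K) (A : Finset (Fin N →₀ ℕ)) :
    MvPolynomial (Fin N) K := ∑ m ∈ A, monomial m (coeff m g)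

/-- `A` is the set of the exponents of `g` of the largest weight -/
def Cov (w : Fin N → ℤ) (g : MvPolynomial (Fin N) K) (A : Finset (Fin N →₀ ℕ)) : Prop :=
  A ⊆ g.support ∧ (∀ m ∈ A, ∀ m' ∈ A, wt w m = wt w m') ∧
    ∀ m ∈ A, ∀ m' ∈ g.support, m' ∉ A → wt w m' < wt w m

lemma coeff_part (g : MvPolynomial (Fin N) K) (A : Finset (Fin N →₀ ℕ)) (m : Fin N →₀ ℕ) :
    coeff m (part g A) = if m ∈ A then coeff m g else 0 := by
  unfold part
  rw [coeff_sum]
  simp only [coeff_monomial]
  rw [Finset.sum_ite_eq']

lemma part_congr {g g' : MvPolynomial (Fin N) K} {A : Finset (Fin N →₀ ℕ)}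
    (h : ∀ m ∈ A, coeff m g = coeff m g') : part g A = part g' A := by
  unfold part
  exact sum_congr rfl fun m hm => by rw [h m hm]

/-- if the top parts of the elements of an ideal lie in the ideal, then so do all parts -/
lemma parts_mem {G : Type*} [LinearOrder G] (W : (Fin N →₀ ℕ) → G)
    (I : Ideal (MvPolynomial (Fin N) K))
    (h : ∀ g ∈ I, ∀ k : G, (∀ m ∈ g.support, W m ≤ k) → part g (g.support.filter fun m => W m = k) ∈ I) :
    ∀ n : ℕ, ∀ g ∈ I, g.support.card = n → ∀ k : G, part g (g.support.filter fun m => W m = k) ∈ I := by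
  intro n
  induction n using Nat.strong_induction_on with
  | _ n ih =>
    intro g hg hn k
    rcases g.support.eq_empty_or_nonempty with h0 | h0
    · rw [h0, filter_empty]
      simp [part]
    · obtain ⟨m0, hm0, hmax⟩ := exists_max_image g.support W h0
      have htop := h g hg (W m0) hmax
      set A := g.support.filter fun m => W m = W m0 with hA
      by_cases hk : k = W m0
      · rw [hk]; exact htop
      · set g' := g - part g A with hg'
        have hc : ∀ m, coeff m g' = if m ∈ A then 0 else coeff m g := by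
          intro m
          rw [hg', coeff_sub, coeff_part]
          split_ifs <;> simp
        have hs : g'.support = g.support \ A := by
          ext m
          rw [mem_support_iff, hc, Finset.mem_sdiff, mem_support_iff]
          split_ifs with hm <;> simp [hm]
        have hlt : g'.support.card < n := by
          rw [← hn, hs]
          apply card_lt_card
          rw [ssubset_iff_of_subset sdiff_subset]
          exact ⟨m0, hm0, by simp [hA, hm0]⟩
        have h1 := ih _ hlt g' (I.sub_mem hg htop) rfl k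
        have e1 : g'.support.filter (fun m => W m = k) = g.support.filter fun m => W m = k := by
          ext m
          simp only [hs, mem_filter, Finset.mem_sdiff]
          constructor
          · rintro ⟨⟨h1, _⟩, h2⟩; exact ⟨h1, h2⟩
          · rintro ⟨h1, h2⟩
            refine ⟨⟨h1, ?_⟩, h2⟩
            intro h3
            exact hk (h2.symm.trans (mem_filter.1 h3).2)
        rw [e1] at h1
        rw [part_congr (g := g) (g' := g')]
        · exact h1
        · intro m hm
          rw [hc, if_neg]
          intro h3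
          exact hk ((mem_filter.1 hm).2.symm.trans (mem_filter.1 h3).2)

/-- a nonzero family in a torsion-free group is seen by a nonzero integral weight -/
lemma exists_int {G : Type*} [AddCommGroup G] [IsAddTorsionFree G] (e : Fin N → G)
    (he : ∃ i, e i ≠ 0) : ∃ w0 : Fin N → ℤ, w0 ≠ 0 ∧ ∀ a b : Fin N →₀ ℕ,
      (∑ i, (a i : ℤ) • e i = ∑ i, (b i : ℤ) • e i) → wt w0 a = wt w0 b := by
  obtain ⟨i0, hi0⟩ := he
  set M := Submodule.span ℤ (Set.range e) with hM
  have hmem : ∀ i, e i ∈ M := fun i => Submodule.subset_span ⟨i, rfl⟩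
  have : Module.Finite ℤ M := Module.Finite.span_of_finite ℤ (Set.finite_range e)
  have : Module.Free ℤ M := Module.free_of_finite_type_torsion_free'
  let b := Module.Free.chooseBasis ℤ M
  have hne : (⟨e i0, hmem i0⟩ : M) ≠ 0 := fun h => hi0 (congrArg Subtype.val h)
  obtain ⟨j, hj⟩ : ∃ j, b.repr ⟨e i0, hmem i0⟩ j ≠ 0 := by
    by_contra hcon
    push Not at hcon
    apply hne
    apply b.repr.injective
    ext j
    rw [hcon j, map_zero]
    rfl
  have key : ∀ a : Fin N →₀ ℕ, wt (fun i => b.coord j ⟨e i, hmem i⟩) a =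
      b.coord j (∑ i, (a i : ℤ) • (⟨e i, hmem i⟩ : M)) := by
    intro a
    rw [map_sum]
    unfold wt
    exact sum_congr rfl fun i _ => by rw [map_smul, smul_eq_mul, mul_comm]
  refine ⟨fun i => b.coord j ⟨e i, hmem i⟩, ?_, fun a a' h => ?_⟩
  · intro h
    exact hj (congrFun h i0)
  · rw [key, key]
    congr 1
    apply Subtype.ext
    simpa using h

/-- finitely many elements of `I` have initial parts not in `I`, for all weights -/
theorem cover (I : Ideal (MvPolynomial (Fin N) K))
    (hI : ∀ w : Fin N → ℤ, w ≠ 0 → ∃ g ∈ I, ∃ k : ℤ, part g (g.support.filter fun m => wt w m = k) ∉ I) :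
    ∃ T : Finset (MvPolynomial (Fin N) K × Finset (Fin N →₀ ℕ)),
      (∀ τ ∈ T, τ.1 ∈ I ∧ part τ.1 τ.2 ∉ I) ∧ ∀ w : Fin N → ℤ, w ≠ 0 → ∃ τ ∈ T, Cov w τ.1 τ.2 := by
  by_contra hcon
  push Not at hcon
  let P := {τ : MvPolynomial (Fin N) K × Finset (Fin N →₀ ℕ) // τ.1 ∈ I ∧ part τ.1 τ.2 ∉ I}
  have h1 : ∀ T : Finset P, ∃ w : Fin N → ℤ, w ≠ 0 ∧ ∀ τ ∈ T, ¬ Cov w τ.1.1 τ.1.2 := by
    intro T
    obtain ⟨w, hw, h⟩ := hcon (T.image Subtype.val) (by
      intro τ hτ
      obtain ⟨σ, _, rfl⟩ := mem_image.1 hτ
      exact σ.2)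
    exact ⟨w, hw, fun τ hτ => h τ.1 (mem_image_of_mem _ hτ)⟩
  choose w hw hcov using h1
  let F : Ultrafilter (Finset P) := Ultrafilter.of atTop
  have hF : (F : Filter (Finset P)) ≤ atTop := Ultrafilter.of_le atTop
  let ψ : (Finset P → ℤ) →+ Germ (F : Filter (Finset P)) ℤ := Germ.coeAddHom _
  let W : (Fin N →₀ ℕ) → Germ (F : Filter (Finset P)) ℤ := fun m => ψ fun T => wt (w T) m
  have hW : ∀ m, W m = ((fun T => wt (w T) m : Finset P → ℤ) : Germ (F : Filter (Finset P)) ℤ) :=
    fun m => rfl
  have hparts := parts_mem W I (by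
    intro g hg k hk
    by_contra hne
    set A := g.support.filter fun m => W m = k with hA
    have hev : ∀ᶠ T in (F : Filter (Finset P)), Cov (w T) g A := by
      have e1 : ∀ᶠ T in (F : Filter (Finset P)), ∀ m ∈ A, ∀ m' ∈ A, wt (w T) m = wt (w T) m' := by
        rw [eventually_all_finset]
        intro m hm
        rw [eventually_all_finset]
        intro m' hm'
        have h2 : W m = W m' := (mem_filter.1 hm).2.trans (mem_filter.1 hm').2.symm
        rw [hW, hW, Germ.coe_eq] at h2
        exact h2
      have e2 : ∀ᶠ T in (F : Filter (Finset P)), ∀ m ∈ A, ∀ m' ∈ g.support \ A,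
          wt (w T) m' < wt (w T) m := by
        rw [eventually_all_finset]
        intro m hm
        rw [eventually_all_finset]
        intro m' hm'
        rw [Finset.mem_sdiff] at hm'
        have h2 : W m' < W m := by
          rw [(mem_filter.1 hm).2]
          apply lt_of_le_of_ne (hk m' hm'.1)
          intro h3
          exact hm'.2 (mem_filter.2 ⟨hm'.1, h3⟩)
        rw [hW, hW, Germ.coe_lt] at h2
        exact h2
      filter_upwards [e1, e2] with T h2 h3
      exact ⟨filter_subset _ _, h2, fun m hm m' hm' hA' => h3 m hm m' (Finset.mem_sdiff.2 ⟨hm', hA'⟩)⟩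
    have hev2 : ∀ᶠ T in (F : Filter (Finset P)), (⟨(g, A), hg, hne⟩ : P) ∈ T := by
      apply hF
      filter_upwards [eventually_ge_atTop {(⟨(g, A), hg, hne⟩ : P)}] with T hT
      exact hT (mem_singleton_self _)
    obtain ⟨T, hT1, hT2⟩ := (hev.and hev2).exists
    exact hcov T _ hT2 hT1)
  have hψ : ∀ m : Fin N →₀ ℕ, W m = ∑ i, (m i : ℤ) • ψ fun T => w T i := by
    intro m
    show ψ (fun T => wt (w T) m) = _
    simp only [← map_zsmul, ← map_sum]
    congr 1
    ext T
    simp [wt, mul_comm]
  obtain ⟨w0, hw0, hw1⟩ := exists_int (fun i => ψ fun T => w T i) (by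
    by_contra hall
    push Not at hall
    have h2 : ∀ᶠ T in (F : Filter (Finset P)), ∀ i, w T i = 0 := by
      rw [eventually_all]
      intro i
      have h3 := hall i
      have h4 : ((fun T => w T i : Finset P → ℤ) : Germ (F : Filter (Finset P)) ℤ) =
        ((fun _ => 0 : Finset P → ℤ) : Germ (F : Filter (Finset P)) ℤ) := h3
      rw [Germ.coe_eq] at h4
      exact h4
    obtain ⟨T, hT⟩ := h2.exists
    exact hw T (funext hT))
  obtain ⟨g, hg, k, hk⟩ := hI w0 hw0
  apply hk
  -- the part is a sum of finer parts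
  have hfin : ∀ a b : Fin N →₀ ℕ, W a = W b → wt w0 a = wt w0 b := by
    intro a b hab
    apply hw1
    rw [← hψ, ← hψ, hab]
  have e1 : part g (g.support.filter fun m => wt w0 m = k) =
      ∑ κ ∈ (g.support.filter fun m => wt w0 m = k).image W, part g (g.support.filter fun m => W m = κ) := by
    ext m
    rw [coeff_sum, coeff_part]
    simp only [coeff_part]
    by_cases hm : m ∈ g.support.filter fun m => wt w0 m = k
    · rw [if_pos hm, Finset.sum_eq_single (W m)]
      · rw [if_pos (show m ∈ g.support.filter (fun m' => W m' = W m) from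
          mem_filter.2 ⟨(mem_filter.1 hm).1, rfl⟩)]
      · intro κ _ hκ
        rw [if_neg]
        intro h
        exact hκ (mem_filter.1 h).2.symm
      · intro h
        exact absurd (mem_image_of_mem W hm) h
    · rw [if_neg hm]
      symm
      apply sum_eq_zero
      intro κ hκ
      obtain ⟨m', hm', rfl⟩ := mem_image.1 hκ
      rw [if_neg]
      intro h
      apply hm
      rw [mem_filter] at hm' h ⊢
      exact ⟨h.1, (hfin m m' h.2).trans hm'.2⟩
  rw [e1]
  exact I.sum_mem fun κ _ => hparts _ g hg rfl κ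

end Pool.Agent.H84.VA
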