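import Mathlib
import Pool.Agent.H84.VA.A
import Pool.Agent.H84.VH.C
import Pool.Graph.R_seed8.H57R3.VJ.L

/-!
# Points of a torus: places, types, heights
-/

set_option autoImplicit false
set_option linter.unusedSectionVars false

open MvPolynomial NumberField Height Finset
open scoped Classical

namespace Pool.Agent.H84.VA

open Pool.Agent.H57R3.VJ

variable {K L : Type*} [Field K] [Field L] [NumberField L] [Algebra K L] {N : ℕ}

/-- the value of a monomial -/
noncomputable def mon (x : Fin N → L) (m : Fin N →₀ ℕ) : L := ∏ i, x i ^ m i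

lemma aeval_monomial' (x : Fin N → L) (m : Fin N →₀ ℕ) (c : K) :
    aeval x (monomial m c) = algebraMap K L c * mon x m := by
  rw [aeval_monomial, Finsupp.prod_fintype _ _ fun i => pow_zero _]
  rfl

lemma aeval_part (g : MvPolynomial (Fin N) K) (A : Finset (Fin N →₀ ℕ)) (x : Fin N → L) :
    aeval x (part g A) = ∑ m ∈ A, algebraMap K L (coeff m g) * mon x m := by
  unfold part
  rw [map_sum]
  exact sum_congr rfl fun m _ => aeval_monomial' x m _

lemma aeval_all (g : MvPolynomial (Fin N) K) (x : Fin N → L) :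
    aeval x g = ∑ m ∈ g.support, algebraMap K L (coeff m g) * mon x m := by
  conv_lhs => rw [g.as_sum]
  rw [map_sum]
  exact sum_congr rfl fun m _ => aeval_monomial' x m _

lemma mon_ne {x : Fin N → L} (hx : ∀ i, x i ≠ 0) (m : Fin N →₀ ℕ) : mon x m ≠ 0 :=
  prod_ne_zero_iff.2 fun i _ => pow_ne_zero _ (hx i)

/-- the weights given by a place -/
noncomputable def wv (v : FinitePlace L) (x : Fin N → L) : Fin N → ℤ := fun i => ev v (x i)

lemma zpow_sum_ne {a : ℝ} (ha : a ≠ 0) {ι : Type*} (s : Finset ι) (f : ι → ℤ) :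
    a ^ (∑ i ∈ s, f i) = ∏ i ∈ s, a ^ f i := by
  induction s using Finset.induction with
  | empty => simp
  | insert b s hb ih => rw [sum_insert hb, prod_insert hb, zpow_add₀ ha, ih]

lemma v_mon {x : Fin N → L} (hx : ∀ i, x i ≠ 0) (v : FinitePlace L) (m : Fin N →₀ ℕ) :
    v (mon x m) = NN v ^ wt (wv v x) m := by
  unfold mon wt wv
  rw [map_prod, zpow_sum_ne (NN_pos v).ne']
  apply prod_congr rfl
  intro i _
  rw [map_pow, ev_spec v (hx i), ← zpow_natCast, ← zpow_mul]

lemma v_mon_one {x : Fin N → L} {v : FinitePlace L} (hv : ∀ i, v (x i) = 1) (m : Fin N →₀ ℕ) :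
    v (mon x m) = 1 := by
  unfold mon
  rw [map_prod]
  apply prod_eq_one
  intro i _
  rw [map_pow, hv i, one_pow]

lemma wv_ne {x : Fin N → L} (hx : ∀ i, x i ≠ 0) {v : FinitePlace L} (hv : ∃ i, v (x i) ≠ 1) :
    wv v x ≠ 0 := by
  obtain ⟨i, hi⟩ := hv
  intro h
  apply hi
  rw [ev_spec v (hx i)]
  have : ev v (x i) = 0 := congrFun h i
  rw [this, zpow_zero]

/-- at a place of type `(g, A)` the monomials with exponents in `A` have the same absolute value, and
the part of `g` is small -/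
lemma place {g : MvPolynomial (Fin N) K} {A : Finset (Fin N →₀ ℕ)} {x : Fin N → L}
    (hx : ∀ i, x i ≠ 0) {v : FinitePlace L} (hg : aeval x g = 0)
    (hc : ∀ m ∈ g.support, v (algebraMap K L (coeff m g)) = 1) (hcov : Cov (wv v x) g A)
    {m0 : Fin N →₀ ℕ} (hm0 : m0 ∈ A) :
    (∀ m ∈ A, v (mon x m / mon x m0) = 1) ∧ v (aeval x (part g A) / mon x m0) < 1 := by
  obtain ⟨h1, h2, h3⟩ := hcov
  have hpos : 0 < v (mon x m0) := FinitePlace.pos_iff.2 (mon_ne hx m0)
  constructor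
  · intro m hm
    rw [map_div₀, v_mon hx, v_mon hx, h2 m hm m0 hm0, div_self]
    exact (zpow_pos (NN_pos v) _).ne'
  · rw [map_div₀, div_lt_one hpos]
    have e1 : aeval x (part g A) = -∑ m ∈ g.support \ A, algebraMap K L (coeff m g) * mon x m := by
      rw [aeval_part, eq_neg_iff_add_eq_zero, add_comm, sum_sdiff h1, ← aeval_all, hg]
    have e2 : v (-∑ m ∈ g.support \ A, algebraMap K L (coeff m g) * mon x m) =
        v (∑ m ∈ g.support \ A, algebraMap K L (coeff m g) * mon x m) := by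
      rw [← neg_one_mul, map_mul]
      have : v (-1 : L) = 1 := by
        have h4 : v (-1 : L) * v (-1 : L) = 1 := by rw [← map_mul]; norm_num
        have h5 : 0 ≤ v (-1 : L) := apply_nonneg _ _
        nlinarith
      rw [this, one_mul]
    rw [e1, e2]
    apply sum_lt_v v _ _ hpos
    intro m hm
    rw [Finset.mem_sdiff] at hm
    rw [map_mul, hc m hm.1, one_mul, v_mon hx, v_mon hx]
    exact zpow_lt_zpow_right₀ (by linarith [two_le_NN v]) (h3 m0 hm0 m hm.1 hm.2)

lemma height_mon {x : Fin N → L} {H : ℝ} (hx : ∀ i, mulHeight₁ (x i) ≤ H) (m : Fin N →₀ ℕ) :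
    mulHeight₁ (mon x m) ≤ H ^ ∑ i, m i := by
  unfold mon
  refine (mulHeight₁_prod_le _ _).trans ?_
  rw [← prod_pow_eq_pow_sum]
  apply prod_le_prod
  · intro i _
    exact mulHeight₁_nonneg _
  · intro i _
    rw [mulHeight₁_pow]
    exact pow_le_pow_left₀ (mulHeight₁_nonneg _) (hx i) _

lemma height_ratio_mon {x : Fin N → L} {H : ℝ} (hH : 1 ≤ H) (hx : ∀ i, mulHeight₁ (x i) ≤ H)
    (m m0 : Fin N →₀ ℕ) :
    mulHeight₁ (mon x m / mon x m0) ≤ H ^ (∑ i, m i + ∑ i, m0 i) := by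
  rw [div_eq_mul_inv, pow_add]
  refine (mulHeight₁_mul_le _ _).trans ?_
  rw [mulHeight₁_inv]
  exact mul_le_mul (height_mon hx m) (height_mon hx m0) (mulHeight₁_nonneg _) (by positivity)

/-- the height of the normalised part -/
lemma height_part (g : MvPolynomial (Fin N) K) {A : Finset (Fin N →₀ ℕ)} (hA : A.Nonempty)
    (m0 : Fin N →₀ ℕ) : ∃ (D : ℝ) (c : ℕ), 1 ≤ D ∧ ∀ (H : ℝ) (x : Fin N → L), 1 ≤ H →
      (∀ i, mulHeight₁ (x i) ≤ H) →
      mulHeight₁ (aeval x (part g A) / mon x m0) ≤ D * H ^ c := by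
  refine ⟨max 1 (A.card ^ totalWeight L * ∏ m ∈ A, mulHeight₁ (algebraMap K L (coeff m g))),
    ∑ m ∈ A, (∑ i, m i + ∑ i, m0 i), le_max_left _ _, fun H x hH hx => ?_⟩
  rw [aeval_part, sum_div]
  refine (mulHeight₁_sum_le hA _).trans ?_
  have h1 : ∏ m ∈ A, mulHeight₁ (algebraMap K L (coeff m g) * mon x m / mon x m0) ≤
      (∏ m ∈ A, mulHeight₁ (algebraMap K L (coeff m g))) *
        H ^ ∑ m ∈ A, (∑ i, m i + ∑ i, m0 i) := by
    rw [← prod_pow_eq_pow_sum, ← prod_mul_distrib]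
    apply prod_le_prod
    · intro m _; exact mulHeight₁_nonneg _
    · intro m _
      rw [mul_div_assoc]
      exact (mulHeight₁_mul_le _ _).trans
        (mul_le_mul_of_nonneg_left (height_ratio_mon hH hx m m0) (mulHeight₁_nonneg _))
  calc (A.card : ℝ) ^ totalWeight L * ∏ m ∈ A, mulHeight₁ (algebraMap K L (coeff m g) * mon x m / mon x m0)
      ≤ (A.card : ℝ) ^ totalWeight L * ((∏ m ∈ A, mulHeight₁ (algebraMap K L (coeff m g))) *
        H ^ ∑ m ∈ A, (∑ i, m i + ∑ i, m0 i)) := mul_le_mul_of_nonneg_left h1 (by positivity)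
    _ = (A.card ^ totalWeight L * ∏ m ∈ A, mulHeight₁ (algebraMap K L (coeff m g))) *
        H ^ ∑ m ∈ A, (∑ i, m i + ∑ i, m0 i) := by ring
    _ ≤ _ := mul_le_mul_of_nonneg_right (le_max_right _ _) (by positivity)

/-- counting by fibres -/
lemma card_le_fibers {α β : Type*} [DecidableEq β] (s : Finset α) (f : α → β) {a b : ℝ}
    (ha : ((s.image f).card : ℝ) ≤ a) (hb0 : 0 ≤ b)
    (hb : ∀ y ∈ s.image f, ((s.filter fun x => f x = y).card : ℝ) ≤ b) : (s.card : ℝ) ≤ a * b := by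
  rw [card_eq_sum_card_image f s]
  push_cast
  calc ∑ y ∈ s.image f, ((s.filter fun x => f x = y).card : ℝ) ≤ ∑ _y ∈ s.image f, b :=
        sum_le_sum hb
    _ = (s.image f).card * b := by rw [sum_const, nsmul_eq_mul]
    _ ≤ a * b := mul_le_mul_of_nonneg_right ha hb0

/-- vectors of elements of bounded height which are units outside `R` -/
lemma card_vec {ι : Type*} [Fintype ι] {δ C H : ℝ} (hH : 1 ≤ H)
    (hC : ∀ X : ℝ, 1 ≤ X → ∀ Q : Finset (FinitePlace L),
      ∀ U : Finset L, (∀ u ∈ U, u ≠ 0 ∧ mulHeight₁ u ≤ X ∧ ∀ v : FinitePlace L, v ∉ Q → v u = 1) →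
      (U.card : ℝ) ≤ C * X ^ δ * (∏ v ∈ Q, NN v) ^ δ) (R : Finset (FinitePlace L))
    (s : Finset (ι → L)) (hs : ∀ x ∈ s, ∀ i, x i ≠ 0 ∧ mulHeight₁ (x i) ≤ H ∧
      ∀ v : FinitePlace L, v ∉ R → v (x i) = 1) :
    (s.card : ℝ) ≤ (C * H ^ δ * (∏ v ∈ R, NN v) ^ δ) ^ Fintype.card ι := by
  have h1 : s ⊆ Fintype.piFinset fun i => s.image fun x => x i := by
    intro x hx
    rw [Fintype.mem_piFinset]
    intro i
    exact mem_image_of_mem _ hx
  have h2 : (s.card : ℝ) ≤ ((Fintype.piFinset fun i => s.image fun x => x i).card : ℝ) := by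
    exact_mod_cast card_le_card h1
  refine h2.trans ?_
  rw [Fintype.card_piFinset]
  push_cast
  rw [← Finset.card_univ, ← Finset.prod_const]
  apply prod_le_prod
  · intro i _; exact Nat.cast_nonneg _
  · intro i _
    apply hC H hH R
    intro u hu
    obtain ⟨x, hx, rfl⟩ := mem_image.1 hu
    exact hs x hx i

end Pool.Agent.H84.VA
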