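import Mathlib
import Pool.Agent.H84.VA.B

/-!
# The number of the points of a torus with few bad places outside those of one type
-/

set_option autoImplicit false
set_option linter.unusedSectionVars false

open MvPolynomial NumberField Height Finset
open scoped Classical

namespace Pool.Agent.H84.VA

open Pool.Agent.H57R3.VJ

variable {K L : Type*} [Field K] [Field L] [NumberField L] [Algebra K L] {N : ℕ}

/-- the places outside `S1` at which some coordinate is not a unit -/
noncomputable def bad (S1 : Finset (FinitePlace L)) (x : Fin N → L) : Finset (FinitePlace L) :=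
  if h : {v : FinitePlace L | v ∉ S1 ∧ ∃ i, v (x i) ≠ 1}.Finite then h.toFinset else ∅

lemma bad_fin {x : Fin N → L} (hx : ∀ i, x i ≠ 0) : {v : FinitePlace L | ∃ i, v (x i) ≠ 1}.Finite := by
  have : {v : FinitePlace L | ∃ i, v (x i) ≠ 1} = ⋃ i, {v | v (x i) ≠ 1} := by
    ext v; simp
  rw [this]
  exact Set.finite_iUnion fun i => FinitePlace.hasFiniteMulSupport (hx i)

lemma mem_bad {S1 : Finset (FinitePlace L)} {x : Fin N → L} (hx : ∀ i, x i ≠ 0) (v : FinitePlace L) :
    v ∈ bad S1 x ↔ v ∉ S1 ∧ ∃ i, v (x i) ≠ 1 := by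
  have h : {v : FinitePlace L | v ∉ S1 ∧ ∃ i, v (x i) ≠ 1}.Finite :=
    (bad_fin hx).subset fun v hv => hv.2
  unfold bad
  rw [dif_pos h]
  simp

lemma one_le_prodNN (Q : Finset (FinitePlace L)) : 1 ≤ ∏ v ∈ Q, NN v :=
  Finset.one_le_prod fun v _ => by linarith [two_le_NN v]

lemma prod_union_le (Q R : Finset (FinitePlace L)) :
    ∏ v ∈ Q ∪ R, NN v ≤ (∏ v ∈ Q, NN v) * ∏ v ∈ R, NN v := by
  rw [← Finset.prod_union_inter]
  exact le_mul_of_one_le_right (prod_nonneg fun v _ => (NN_pos v).le) (one_le_prodNN _)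

lemma prod_mono_NN {Q R : Finset (FinitePlace L)} (h : Q ⊆ R) :
    ∏ v ∈ Q, NN v ≤ ∏ v ∈ R, NN v := by
  rw [← Finset.prod_sdiff h]
  exact le_mul_of_one_le_left (prod_nonneg fun v _ => (NN_pos v).le) (one_le_prodNN _)

theorem count_type (g : MvPolynomial (Fin N) K) (A : Finset (Fin N →₀ ℕ)) {m0 : Fin N →₀ ℕ}
    (hm0 : m0 ∈ A) (S1 : Finset (FinitePlace L)) {κ ε : ℝ} (hκ : 0 ≤ κ) (hε : 0 < ε) :
    ∃ M : ℝ, 0 ≤ M ∧ ∀ X H : ℝ, 1 ≤ X → 1 ≤ H → ∀ (PP : Finset (Fin N → L))
      (P : (Fin N → L) → Finset (FinitePlace L)),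
      (∀ x ∈ PP, (∀ i, x i ≠ 0) ∧ (∀ i, mulHeight₁ (x i) ≤ H) ∧ aeval x (part g A) ≠ 0 ∧
        P x ⊆ bad S1 x ∧
        (∀ v ∈ P x, v (aeval x (part g A) / mon x m0) < 1 ∧ ∀ m ∈ A, v (mon x m / mon x m0) = 1) ∧
        ∏ v ∈ bad S1 x, NN v ≤ X ∧ ∏ v ∈ bad S1 x \ P x, NN v ≤ X ^ κ) →
      (PP.card : ℝ) ≤ M * X ^ (κ + ε) * H ^ ε := by
  obtain ⟨D, c, hD, hDc⟩ := height_part (L := L) g ⟨m0, hm0⟩ m0
  set e : ℕ := ∑ m ∈ A, (∑ i, m i + ∑ i, m0 i) with he
  set den : ℕ := e * A.card + A.card + c + N + 1 with hden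
  have hden0 : (0 : ℝ) < den := by positivity
  set δ : ℝ := ε / den with hδd
  have hδ : 0 < δ := by positivity
  obtain ⟨C1, hC1, h1⟩ := supp_card (K := L) hδ
  obtain ⟨C2, hC2, h2⟩ := Pool.Agent.H84.VH.two_pow_le (K := L) hδ
  obtain ⟨C3, hC3, h3⟩ := sets_card (K := L)
  set W : ℝ := ∏ v ∈ S1, NN v with hW
  have hW1 : 1 ≤ W := one_le_prodNN S1
  set w : ℝ := W ^ δ with hw
  have hw0 : 0 < w := Real.rpow_pos_of_pos (by linarith) _
  have hD0' : 0 < D := by linarith
  refine ⟨C3 * (C1 * w) ^ A.card * (C2 * D ^ δ) * (C1 * w) ^ N, by positivity,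
    fun X H hX hH PP P hPP => ?_⟩
  have hX0 : 0 < X := by linarith
  have hH0 : 0 < H := by linarith
  have hD0 : 0 < D := by linarith
  set b : ℝ := X ^ δ with hb
  set h : ℝ := H ^ δ with hh
  have hb1 : 1 ≤ b := Real.one_le_rpow hX hδ.le
  have hh1 : 1 ≤ h := Real.one_le_rpow hH hδ.le
  have hb0 : 0 < b := by linarith
  have hh0 : 0 < h := by linarith
  have hpow : ∀ k : ℕ, (H ^ k) ^ δ = h ^ k := fun k => by
    rw [hh, ← Real.rpow_natCast, ← Real.rpow_mul hH0.le, ← Real.rpow_natCast, ← Real.rpow_mul hH0.le,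
      mul_comm]
  have hVb : ∀ R : Finset (FinitePlace L), ∏ v ∈ R, NN v ≤ X → (∏ v ∈ R ∪ S1, NN v) ^ δ ≤ b * w := by
    intro R hR
    rw [hb, hw, ← Real.mul_rpow hX0.le (by linarith)]
    apply Real.rpow_le_rpow (prod_nonneg fun v _ => (NN_pos v).le) _ hδ.le
    exact (prod_union_le R S1).trans (mul_le_mul_of_nonneg_right hR (by linarith))
  -- points with given bad places
  have L4 : ∀ s ⊆ PP, ∀ R : Finset (FinitePlace L), (∀ x ∈ s, bad S1 x = R) →
      (s.card : ℝ) ≤ (C1 * w * (b * h)) ^ N := by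
    intro s hs R hR
    rcases s.eq_empty_or_nonempty with h0 | ⟨x0, hx0⟩
    · rw [h0, card_empty, Nat.cast_zero]
      positivity
    have hRX : ∏ v ∈ R, NN v ≤ X := by
      rw [← hR x0 hx0]; exact (hPP x0 (hs hx0)).2.2.2.2.2.1
    have h5 := card_vec (L := L) (ι := Fin N) hH h1 (R ∪ S1) s (by
      intro x hx i
      obtain ⟨g1, g2, g3, g4, g5, g6, g7⟩ := hPP x (hs hx)
      refine ⟨g1 i, g2 i, fun v hv => ?_⟩
      rw [mem_union, not_or] at hv
      by_contra hne
      apply hv.1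
      rw [← hR x hx]
      exact (mem_bad g1 v).2 ⟨hv.2, i, hne⟩)
    rw [Fintype.card_fin] at h5
    refine h5.trans (pow_le_pow_left₀ (mul_nonneg (by positivity) (Real.rpow_nonneg (prod_nonneg fun v _ => (NN_pos v).le) _)) ?_ _)
    calc C1 * H ^ δ * (∏ v ∈ R ∪ S1, NN v) ^ δ ≤ C1 * H ^ δ * (b * w) :=
          mul_le_mul_of_nonneg_left (hVb R hRX) (by positivity)
      _ = C1 * w * (b * h) := by rw [← hh]; ring
  -- sets of places of the type
  have L3 : ∀ s ⊆ PP, ∀ (Q : Finset (FinitePlace L)) (y : A → L), (∀ x ∈ s, bad S1 x \ P x = Q) →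
      (∀ x ∈ s, ∀ m : A, mon x m.1 / mon x m0 = y m) →
      (s.card : ℝ) ≤ (C2 * D ^ δ * h ^ c) * (C1 * w * (b * h)) ^ N := by
    intro s hs Q y hQ hy
    apply card_le_fibers s P
    · rcases s.eq_empty_or_nonempty with h0 | ⟨x0, hx0⟩
      · rw [h0, image_empty, card_empty, Nat.cast_zero]
        positivity
      obtain ⟨g1, g2, g3, g4, g5, g6, g7⟩ := hPP x0 (hs hx0)
      set φ : L := aeval x0 (part g A) / mon x0 m0 with hφ
      have hφ0 : φ ≠ 0 := div_ne_zero g3 (mon_ne g1 m0)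
      have hφe : ∀ x ∈ s, aeval x (part g A) / mon x m0 = φ := by
        have : ∀ x ∈ s, aeval x (part g A) / mon x m0 =
            ∑ m : A, algebraMap K L (coeff m.1 g) * y m := by
          intro x hx
          rw [aeval_part, sum_div, ← sum_coe_sort A]
          apply sum_congr rfl
          intro m _
          rw [mul_div_assoc, hy x hx m]
        intro x hx
        rw [hφ, this x hx, this x0 hx0]
      have hfin : {v : FinitePlace L | v φ < 1}.Finite := by
        refine (FinitePlace.hasFiniteMulSupport hφ0).subset ?_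
        intro v hv
        rw [Function.mem_mulSupport]
        exact ne_of_lt hv
      have h6 : s.image P ⊆ hfin.toFinset.powerset := by
        intro R hR
        obtain ⟨x, hx, rfl⟩ := mem_image.1 hR
        rw [mem_powerset]
        intro v hv
        rw [Set.Finite.mem_toFinset]
        have := ((hPP x (hs hx)).2.2.2.2.1 v hv).1
        rw [hφe x hx] at this
        exact this
      have h7 : ((s.image P).card : ℝ) ≤ (2 : ℝ) ^ hfin.toFinset.card := by
        have := card_le_card h6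
        rw [card_powerset] at this
        exact_mod_cast this
      refine h7.trans ((h2 φ hφ0 _ fun v hv => by simpa using hv).trans ?_)
      rw [mul_assoc]
      apply mul_le_mul_of_nonneg_left _ (by linarith)
      rw [← hpow c, ← Real.mul_rpow (by linarith) (by positivity)]
      exact Real.rpow_le_rpow (mulHeight₁_nonneg _) (hDc H x0 hH g2) hδ.le
    · positivity
    · intro P0 _
      apply L4 _ ((filter_subset _ _).trans hs) (Q ∪ P0)
      intro x hx
      obtain ⟨hx1, hx2⟩ := mem_filter.1 hx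
      rw [← hQ x hx1, ← hx2]
      exact (sdiff_union_of_subset (hPP x (hs hx1)).2.2.2.1).symm
  have L2 : ∀ s ⊆ PP, ∀ (Q : Finset (FinitePlace L)), (∀ x ∈ s, bad S1 x \ P x = Q) →
      (s.card : ℝ) ≤ (C1 * w * (b * h ^ e)) ^ A.card *
        ((C2 * D ^ δ * h ^ c) * (C1 * w * (b * h)) ^ N) := by
    intro s hs Q hQ
    apply card_le_fibers s (fun x (m : A) => mon x m.1 / mon x m0)
    · rcases s.eq_empty_or_nonempty with h0 | ⟨x0, hx0⟩
      · rw [h0, image_empty, card_empty, Nat.cast_zero]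
        positivity
      have hQX : ∏ v ∈ Q, NN v ≤ X := by
        rw [← hQ x0 hx0]
        exact (prod_mono_NN sdiff_subset).trans (hPP x0 (hs hx0)).2.2.2.2.2.1
      have h5 := card_vec (L := L) (ι := A) (H := H ^ e) (one_le_pow₀ hH) h1 (Q ∪ S1)
        (s.image fun x (m : A) => mon x m.1 / mon x m0) (by
        intro y hy m
        obtain ⟨x, hx, rfl⟩ := mem_image.1 hy
        obtain ⟨g1, g2, g3, g4, g5, g6, g7⟩ := hPP x (hs hx)
        refine ⟨div_ne_zero (mon_ne g1 _) (mon_ne g1 _), ?_, fun v hv => ?_⟩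
        · refine (height_ratio_mon hH g2 m.1 m0).trans (pow_le_pow_right₀ hH ?_)
          exact single_le_sum (f := fun m : Fin N →₀ ℕ => ∑ i, m i + ∑ i, m0 i)
            (fun _ _ => Nat.zero_le _) m.2
        · rw [mem_union, not_or] at hv
          by_cases hvb : v ∈ bad S1 x
          · have hvP : v ∈ P x := by
              by_contra hne
              apply hv.1
              rw [← hQ x hx]
              exact Finset.mem_sdiff.2 ⟨hvb, hne⟩
            exact (g5 v hvP).2 m.1 m.2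
          · have hall : ∀ i, v (x i) = 1 := by
              intro i
              by_contra hne
              exact hvb ((mem_bad g1 v).2 ⟨hv.2, i, hne⟩)
            rw [map_div₀, v_mon_one hall, v_mon_one hall, div_one])
      rw [Fintype.card_coe] at h5
      refine h5.trans (pow_le_pow_left₀ (mul_nonneg (by positivity)
        (Real.rpow_nonneg (prod_nonneg fun v _ => (NN_pos v).le) _)) ?_ _)
      rw [hpow e]
      calc C1 * h ^ e * (∏ v ∈ Q ∪ S1, NN v) ^ δ ≤ C1 * h ^ e * (b * w) :=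
            mul_le_mul_of_nonneg_left (hVb Q hQX) (by positivity)
        _ = C1 * w * (b * h ^ e) := by ring
    · positivity
    · intro y _
      apply L3 _ ((filter_subset _ _).trans hs) Q y
      · intro x hx
        exact hQ x (mem_filter.1 hx).1
      · intro x hx m
        exact congrFun (mem_filter.1 hx).2 m
  have L1 : (PP.card : ℝ) ≤ (C3 * X ^ κ) * ((C1 * w * (b * h ^ e)) ^ A.card *
        ((C2 * D ^ δ * h ^ c) * (C1 * w * (b * h)) ^ N)) := by
    apply card_le_fibers PP (fun x => bad S1 x \ P x)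
    · apply h3 _ (Real.one_le_rpow hX hκ)
      intro Q hQ
      obtain ⟨x, hx, rfl⟩ := mem_image.1 hQ
      exact (hPP x hx).2.2.2.2.2.2
    · positivity
    · intro Q _
      apply L2 _ (filter_subset _ _) Q
      intro x hx
      exact (mem_filter.1 hx).2
  refine L1.trans ?_
  have hbe : b ^ (A.card + N) ≤ X ^ ε := by
    have : X ^ ε = b ^ den := by
      rw [hb, ← Real.rpow_natCast, ← Real.rpow_mul hX0.le, hδd, div_mul_cancel₀ _ hden0.ne']
    rw [this]
    exact pow_le_pow_right₀ hb1 (by omega)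
  have hhe : h ^ (e * A.card + c + N) ≤ H ^ ε := by
    have : H ^ ε = h ^ den := by
      rw [hh, ← Real.rpow_natCast, ← Real.rpow_mul hH0.le, hδd, div_mul_cancel₀ _ hden0.ne']
    rw [this]
    exact pow_le_pow_right₀ hh1 (by omega)
  have hXκ : 0 < X ^ κ := Real.rpow_pos_of_pos hX0 _
  have hDδ : 0 < D ^ δ := Real.rpow_pos_of_pos (by linarith) _
  calc (C3 * X ^ κ) * ((C1 * w * (b * h ^ e)) ^ A.card *
        ((C2 * D ^ δ * h ^ c) * (C1 * w * (b * h)) ^ N))
      = (C3 * (C1 * w) ^ A.card * (C2 * D ^ δ) * (C1 * w) ^ N) * X ^ κ *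
        b ^ (A.card + N) * h ^ (e * A.card + c + N) := by
          rw [pow_add, pow_add, pow_add, pow_mul, mul_pow (C1 * w), mul_pow b, mul_pow (C1 * w) (b * h),
            mul_pow b h]
          ring
    _ ≤ (C3 * (C1 * w) ^ A.card * (C2 * D ^ δ) * (C1 * w) ^ N) * X ^ κ * X ^ ε * H ^ ε := by
          apply mul_le_mul _ hhe (by positivity) (by positivity)
          exact mul_le_mul_of_nonneg_left hbe (by positivity)
    _ = _ := by rw [Real.rpow_add hX0]; ring

end Pool.Agent.H84.VA
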