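import Mathlib
import Pool.Agent.H84.VA.C

/-!
# The upper bound
-/

set_option autoImplicit false
set_option linter.unusedSectionVars false

open MvPolynomial NumberField Height Finset
open scoped Classical

namespace Pool.Agent.H84.VA

open Pool.Agent.H57R3.VJ

section

variable {L : Type*} [Field L] [NumberField L] {N : ℕ}

/-- the truncated counting function of the boundary of the torus -/
noncomputable def N1 (S : Finset (FinitePlace L)) (x : Fin N → L) : ℝ :=
  ∑ᶠ v : FinitePlace L, if v ∉ S ∧ ∃ i, v (x i) ≠ 1 then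
    Real.log (Ideal.absNorm v.maximalIdeal.asIdeal : ℝ) else 0

lemma log_nonneg' (v : FinitePlace L) : 0 ≤ Real.log (NN v) :=
  Real.log_nonneg (by linarith [two_le_NN v])

lemma N1_eq (S : Finset (FinitePlace L)) {x : Fin N → L} (hx : ∀ i, x i ≠ 0) :
    N1 S x = ∑ v ∈ bad S x, Real.log (NN v) := by
  unfold N1
  rw [finsum_eq_sum_of_support_subset _ (s := bad S x) (by
    intro v hv
    rw [Function.mem_support] at hv
    by_contra hne
    apply hv
    rw [if_neg]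
    intro h
    exact hne (mem_coe.2 ((mem_bad hx v).2 h)))]
  apply sum_congr rfl
  intro v hv
  rw [if_pos ((mem_bad hx v).1 hv)]
  rfl

lemma bad_sub {S S1 : Finset (FinitePlace L)} (h : S ⊆ S1) {x : Fin N → L} (hx : ∀ i, x i ≠ 0) :
    bad S1 x ⊆ bad S x := by
  intro v hv
  rw [mem_bad hx] at hv ⊢
  exact ⟨fun h' => hv.1 (h h'), hv.2⟩

lemma prodNN_le {Q : Finset (FinitePlace L)} {X κ : ℝ} (hX : 0 < X)
    (h : ∑ v ∈ Q, Real.log (NN v) ≤ κ * Real.log X) : ∏ v ∈ Q, NN v ≤ X ^ κ := by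
  rw [← Real.log_prod fun v _ => (NN_pos v).ne', ← Real.log_rpow hX] at h
  exact (Real.log_le_log_iff (prod_pos fun v _ => NN_pos v) (Real.rpow_pos_of_pos hX _)).1 h

end

variable {K : Type*} [Field K] {N : ℕ}

/-- no weight makes the ideal homogeneous -/
def NotGraded (I : Ideal (MvPolynomial (Fin N) K)) : Prop :=
  ∀ w : Fin N → ℤ, w ≠ 0 → ∃ g ∈ I, ∃ k : ℤ, part g (g.support.filter fun m => wt w m = k) ∉ I

theorem upper (I : Ideal (MvPolynomial (Fin N) K)) (hp : I.IsPrime) (hI : NotGraded I) :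
    ∃ ν : ℝ, 0 < ν ∧ ν < 1 ∧ ∃ f : MvPolynomial (Fin N) K, f ∉ I ∧
      ∀ (L : Type) [Field L] [NumberField L] [Algebra K L] (S : Finset (FinitePlace L)) (ε : ℝ), 0 < ε →
        ∃ M : ℝ, ∀ X H : ℝ, 1 ≤ X → 1 ≤ H → ∀ PP : Finset (Fin N → L),
          (∀ x ∈ PP, (∀ i, x i ≠ 0) ∧ (∀ g ∈ I, aeval x g = 0) ∧ aeval x f ≠ 0 ∧
            (∀ i, mulHeight₁ (x i) ≤ H) ∧ N1 S x ≤ Real.log X) →
          (PP.card : ℝ) ≤ M * X ^ (1 - ν) * H ^ ε := by
  obtain ⟨T, hT1, hT2⟩ := cover I hI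
  have hf : ∏ τ ∈ T, part τ.1 τ.2 ∉ I := by
    rw [hp.prod_mem_iff]
    push Not
    exact fun τ hτ => (hT1 τ hτ).2
  refine ⟨1 / (2 * (T.card + 1)), by positivity, ?_, ∏ τ ∈ T, part τ.1 τ.2, hf, ?_⟩
  · rw [div_lt_one (by positivity)]
    have : (0 : ℝ) ≤ T.card := Nat.cast_nonneg _
    linarith
  intro L _ _ _ S ε hε
  have hν1 : (1 : ℝ) / (2 * (T.card + 1)) ≤ 1 := by
    rw [div_le_one (by positivity)]
    have : (0 : ℝ) ≤ T.card := Nat.cast_nonneg _
    linarith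
  rcases T.eq_empty_or_nonempty with hT0 | hTne
  · -- dimension zero
    have hN : N = 0 := by
      by_contra hN
      obtain ⟨τ, hτ, _⟩ := hT2 (fun _ => 1) (by
        intro h
        have := congrFun h ⟨0, Nat.pos_of_ne_zero hN⟩
        simp at this)
      rw [hT0] at hτ
      exact absurd hτ (notMem_empty τ)
    subst hN
    refine ⟨1, fun X H hX hH PP _ => ?_⟩
    have h1 : (PP.card : ℝ) ≤ 1 := by exact_mod_cast card_le_one_of_subsingleton PP
    have h2 : 1 ≤ X ^ (1 - 1 / (2 * ((T.card : ℝ) + 1))) := Real.one_le_rpow hX (by linarith)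
    have h3 : 1 ≤ H ^ ε := Real.one_le_rpow hH hε.le
    nlinarith
  have ht : 0 < T.card := card_pos.2 hTne
  have ht' : (0 : ℝ) < T.card := by exact_mod_cast ht
  have ht1 : (1 : ℝ) ≤ T.card := by exact_mod_cast ht
  -- the bad places of the coefficients
  have hfin : (⋃ τ ∈ (T : Set (MvPolynomial (Fin N) K × Finset (Fin N →₀ ℕ))), ⋃ m ∈ (τ.1.support : Set (Fin N →₀ ℕ)),
      {v : FinitePlace L | v (algebraMap K L (coeff m τ.1)) ≠ 1}).Finite := by
    apply T.finite_toSet.biUnion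
    intro τ _
    apply τ.1.support.finite_toSet.biUnion
    intro m hm
    apply FinitePlace.hasFiniteMulSupport
    rw [map_ne_zero]
    exact mem_support_iff.1 hm
  set S1 : Finset (FinitePlace L) := S ∪ hfin.toFinset with hS1
  have hcoef : ∀ τ ∈ T, ∀ m ∈ τ.1.support, ∀ v ∉ S1, v (algebraMap K L (coeff m τ.1)) = 1 := by
    intro τ hτ m hm v hv
    by_contra hne
    apply hv
    rw [hS1, mem_union]
    right
    rw [Set.Finite.mem_toFinset]
    simp only [Set.mem_iUnion]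
    exact ⟨τ, hτ, m, hm, hne⟩
  have hA : ∀ τ ∈ T, τ.2.Nonempty := by
    intro τ hτ
    rw [nonempty_iff_ne_empty]
    intro h0
    apply (hT1 τ hτ).2
    rw [h0]
    simp [part]
  choose! m0 hm0 using hA
  choose! ty hty using hT2
  set κ : ℝ := 1 - 1 / T.card with hκ
  have hκ0 : 0 ≤ κ := by
    rw [hκ, sub_nonneg, div_le_one ht']
    exact ht1
  set ε' : ℝ := min ε (1 / (2 * T.card * (T.card + 1))) with hε'
  have hε'0 : 0 < ε' := lt_min hε (by positivity)
  have hcount : ∀ τ : MvPolynomial (Fin N) K × Finset (Fin N →₀ ℕ), ∃ M : ℝ, τ ∈ T → 0 ≤ M ∧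
      ∀ X H : ℝ, 1 ≤ X → 1 ≤ H → ∀ (PP : Finset (Fin N → L))
      (P : (Fin N → L) → Finset (FinitePlace L)),
      (∀ x ∈ PP, (∀ i, x i ≠ 0) ∧ (∀ i, mulHeight₁ (x i) ≤ H) ∧ aeval x (part τ.1 τ.2) ≠ 0 ∧
        P x ⊆ bad S1 x ∧
        (∀ v ∈ P x, v (aeval x (part τ.1 τ.2) / mon x (m0 τ)) < 1 ∧
          ∀ m ∈ τ.2, v (mon x m / mon x (m0 τ)) = 1) ∧
        ∏ v ∈ bad S1 x, NN v ≤ X ∧ ∏ v ∈ bad S1 x \ P x, NN v ≤ X ^ κ) →
      (PP.card : ℝ) ≤ M * X ^ (κ + ε') * H ^ ε' := by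
    intro τ
    by_cases hτ : τ ∈ T
    · obtain ⟨M, hM, h⟩ := count_type (L := L) τ.1 τ.2 (hm0 τ hτ) S1 hκ0 hε'0
      exact ⟨M, fun _ => ⟨hM, h⟩⟩
    · exact ⟨0, fun h => absurd h hτ⟩
  choose M hM using hcount
  refine ⟨∑ τ ∈ T, M τ, fun X H hX hH PP hPP => ?_⟩
  have hX0 : 0 < X := by linarith
  have hH0 : 0 < H := by linarith
  have hlogX : 0 ≤ Real.log X := Real.log_nonneg hX
  -- the type with the most places
  have hpig : ∀ x ∈ PP, ∃ τ ∈ T,
      ∑ v ∈ bad S1 x \ (bad S1 x).filter (fun v => ty (wv v x) = τ), Real.log (NN v) ≤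
        κ * Real.log X := by
    intro x hx
    obtain ⟨g1, g2, g3, g4, g5⟩ := hPP x hx
    set tot := ∑ v ∈ bad S1 x, Real.log (NN v) with htot
    have htotX : tot ≤ Real.log X := by
      refine le_trans ?_ g5
      rw [N1_eq S g1, htot]
      exact sum_le_sum_of_subset_of_nonneg (bad_sub subset_union_left g1) fun v _ _ => log_nonneg' v
    have hmaps : ∀ v ∈ bad S1 x, ty (wv v x) ∈ T := fun v hv =>
      (hty _ (wv_ne g1 ((mem_bad g1 v).1 hv).2)).1
    have hsum : ∑ τ ∈ T, ∑ v ∈ (bad S1 x).filter (fun v => ty (wv v x) = τ), Real.log (NN v) = tot :=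
      sum_fiberwise_of_maps_to hmaps _
    obtain ⟨τ, hτ, hle⟩ := exists_le_of_sum_le (s := T) (f := fun _ => tot / T.card)
      (g := fun τ => ∑ v ∈ (bad S1 x).filter (fun v => ty (wv v x) = τ), Real.log (NN v)) hTne (by
        rw [hsum, sum_const, nsmul_eq_mul, mul_div_cancel₀ _ ht'.ne'])
    refine ⟨τ, hτ, ?_⟩
    have h1 := Finset.sum_sdiff (s₁ := (bad S1 x).filter (fun v => ty (wv v x) = τ))
      (s₂ := bad S1 x) (f := fun v => Real.log (NN v)) (filter_subset _ _)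
    have h2 : tot - tot / T.card = κ * tot := by rw [hκ]; ring
    have h3 : κ * tot ≤ κ * Real.log X := mul_le_mul_of_nonneg_left htotX hκ0
    linarith
  choose! τx hτx1 hτx2 using hpig
  have hcard : ∀ τ ∈ T, ((PP.filter fun x => τx x = τ).card : ℝ) ≤ M τ * X ^ (κ + ε') * H ^ ε' := by
    intro τ hτ
    apply (hM τ hτ).2 X H hX hH _ fun x => (bad S1 x).filter fun v => ty (wv v x) = τ
    intro x hx
    obtain ⟨hx1, hx2⟩ := mem_filter.1 hx
    obtain ⟨g1, g2, g3, g4, g5⟩ := hPP x hx1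
    refine ⟨g1, g4, ?_, filter_subset _ _, ?_, ?_, ?_⟩
    · intro h0
      apply g3
      rw [map_prod]
      exact prod_eq_zero hτ h0
    · intro v hv
      obtain ⟨hv1, hv2⟩ := mem_filter.1 hv
      have hcov := (hty _ (wv_ne g1 ((mem_bad g1 v).1 hv1).2)).2
      rw [hv2] at hcov
      have := place g1 (g2 _ (hT1 τ hτ).1)
        (fun m hm => hcoef τ hτ m hm v ((mem_bad g1 v).1 hv1).1) hcov (hm0 τ hτ)
      exact ⟨this.2, this.1⟩
    · have := prodNN_le (Q := bad S1 x) (κ := 1) hX0 (by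
        rw [one_mul]
        refine le_trans ?_ g5
        rw [N1_eq S g1]
        exact sum_le_sum_of_subset_of_nonneg (bad_sub subset_union_left g1) fun v _ _ => log_nonneg' v)
      rwa [Real.rpow_one] at this
    · have := hτx2 x hx1
      rw [hx2] at this
      exact prodNN_le hX0 this
  have hexp : κ + ε' ≤ 1 - 1 / (2 * (T.card + 1)) := by
    have h1 : ε' ≤ 1 / (2 * T.card * (T.card + 1)) := min_le_right _ _
    have h2 : (1 : ℝ) / (2 * T.card * (T.card + 1)) + 1 / (2 * (T.card + 1)) = 1 / (2 * T.card) := by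
      field_simp
      ring
    have h3 : (1 : ℝ) / (2 * T.card) ≤ 1 / T.card := by
      apply one_div_le_one_div_of_le ht'
      linarith
    rw [hκ]
    linarith
  calc (PP.card : ℝ) ≤ ∑ τ ∈ T, ((PP.filter fun x => τx x = τ).card : ℝ) := by
        rw [card_eq_sum_card_fiberwise (f := τx) (t := T) fun x hx => hτx1 x hx]
        push_cast
        exact le_rfl
    _ ≤ ∑ τ ∈ T, M τ * X ^ (κ + ε') * H ^ ε' := sum_le_sum hcard
    _ = (∑ τ ∈ T, M τ) * X ^ (κ + ε') * H ^ ε' := by rw [sum_mul, sum_mul]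
    _ ≤ (∑ τ ∈ T, M τ) * X ^ (1 - 1 / (2 * ((T.card : ℝ) + 1))) * H ^ ε := by
        have hs : 0 ≤ ∑ τ ∈ T, M τ := sum_nonneg fun τ hτ => (hM τ hτ).1
        apply mul_le_mul _ _ (by positivity) (by positivity)
        · exact mul_le_mul_of_nonneg_left (Real.rpow_le_rpow_of_exponent_le hX hexp) hs
        · exact Real.rpow_le_rpow_of_exponent_le hH (min_le_left _ _)

end Pool.Agent.H84.VA
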