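import Mathlib
import Pool.Agent.H84.VA.D
import Pool.Agent.H84.VH.F2

/-!
# Stability under a subtorus and the lower bound
-/

set_option autoImplicit false
set_option linter.unusedSectionVars false

open MvPolynomial NumberField Height Finset
open scoped Classical

namespace Pool.Agent.H84.VA

open Pool.Agent.H57R3.VJ Pool.Agent.H84.VH

section stable

variable {K : Type*} [Field K] {N : ℕ}

/-- the points of the zero set in the torus are stable under the one-parameter subgroup `w` -/
def StableUnder (I : Ideal (MvPolynomial (Fin N) K)) (w : Fin N → ℤ) : Prop :=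
  ∀ x ∈ zeroLocus (AlgebraicClosure K) I, (∀ i, x i ≠ 0) → ∀ t : AlgebraicClosure K, t ≠ 0 →
    (fun i => t ^ w i * x i) ∈ zeroLocus (AlgebraicClosure K) I

lemma mon_scale {L : Type*} [Field L] [NumberField L] (x : Fin N → L) (w : Fin N → ℤ) {t : L} (ht : t ≠ 0)
    (m : Fin N →₀ ℕ) : mon (fun i => t ^ w i * x i) m = t ^ wt w m * mon x m := by
  unfold mon wt
  simp only [mul_pow, prod_mul_distrib]
  congr 1
  induction (univ : Finset (Fin N)) using Finset.induction with
  | empty => simp
  | insert b s hb ih =>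
    rw [prod_insert hb, sum_insert hb, zpow_add₀ ht, ih, zpow_mul, zpow_natCast]

/-- the value of a monomial over any field -/
noncomputable def monF {F : Type*} [Field F] (x : Fin N → F) (m : Fin N →₀ ℕ) : F := ∏ i, x i ^ m i

lemma monF_scale {F : Type*} [Field F] (x : Fin N → F) (w : Fin N → ℤ) {t : F} (ht : t ≠ 0)
    (m : Fin N →₀ ℕ) : monF (fun i => t ^ w i * x i) m = t ^ wt w m * monF x m := by
  unfold monF wt
  simp only [mul_pow, prod_mul_distrib]
  congr 1
  induction (univ : Finset (Fin N)) using Finset.induction with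
  | empty => simp
  | insert b s hb ih =>
    rw [prod_insert hb, sum_insert hb, zpow_add₀ ht, ih, zpow_mul, zpow_natCast]

lemma aevalF {F : Type*} [Field F] [Algebra K F] (g : MvPolynomial (Fin N) K) (x : Fin N → F) :
    aeval x g = ∑ m ∈ g.support, algebraMap K F (coeff m g) * monF x m := by
  conv_lhs => rw [g.as_sum]
  rw [map_sum]
  apply sum_congr rfl
  intro m _
  rw [aeval_monomial, Finsupp.prod_fintype _ _ fun i => pow_zero _]
  rfl

lemma aevalF_part {F : Type*} [Field F] [Algebra K F] (g : MvPolynomial (Fin N) K)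
    (A : Finset (Fin N →₀ ℕ)) (x : Fin N → F) :
    aeval x (part g A) = ∑ m ∈ A, algebraMap K F (coeff m g) * monF x m := by
  unfold part
  rw [map_sum]
  apply sum_congr rfl
  intro m _
  rw [aeval_monomial, Finsupp.prod_fintype _ _ fun i => pow_zero _]
  rfl

lemma aeval_scale {F : Type*} [Field F] [Algebra K F] (g : MvPolynomial (Fin N) K) (x : Fin N → F)
    (w : Fin N → ℤ) {t : F} (ht : t ≠ 0) :
    aeval (fun i => t ^ w i * x i) g =
      ∑ k ∈ g.support.image (wt w), t ^ k * aeval x (part g (g.support.filter fun m => wt w m = k)) := by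
  rw [aevalF, ← sum_fiberwise_of_maps_to (t := g.support.image (wt w)) (g := wt w)
    fun m hm => mem_image_of_mem _ hm]
  apply sum_congr rfl
  intro k _
  rw [aevalF_part, mul_sum]
  apply sum_congr rfl
  intro m hm
  rw [monF_scale x w ht, (mem_filter.1 hm).2]
  ring

/-- an ideal whose zero set in the torus is not stable is not graded -/
theorem notGraded_of_not_stable (I : Ideal (MvPolynomial (Fin N) K))
    (h : ¬ ∃ w : Fin N → ℤ, w ≠ 0 ∧ StableUnder I w) : NotGraded I := by
  intro w hw
  by_contra hcon
  push Not at hcon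
  apply h
  refine ⟨w, hw, fun x hx _ t ht g hg => ?_⟩
  rw [aeval_scale g x w ht]
  apply sum_eq_zero
  intro k _
  have := hcon g hg k
  rw [hx _ this, mul_zero]

end stable

section points

variable {K : Type} [Field K] [NumberField K] {N : ℕ}

/-- a number field over which a given open part of the variety has a point -/
theorem exists_point (I : Ideal (MvPolynomial (Fin N) K)) (hp : I.IsPrime) (hX : ∀ i, X i ∉ I)
    (f : MvPolynomial (Fin N) K) (hf : f ∉ I) :
    ∃ (L : Type) (_ : Field L) (_ : NumberField L) (_ : Algebra K L) (x : Fin N → L),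
      (∀ i, x i ≠ 0) ∧ x ∈ zeroLocus L I ∧ aeval x f ≠ 0 := by
  have h1 : f * ∏ i, X i ∉ I := by
    intro h
    rcases hp.mem_or_mem h with h | h
    · exact hf h
    · rw [hp.prod_mem_iff] at h
      obtain ⟨i, _, hi⟩ := h
      exact hX i hi
  have h2 : vanishingIdeal K (zeroLocus (AlgebraicClosure K) I) = I := by
    haveI := hp
    exact IsPrime.vanishingIdeal_zeroLocus I
  rw [← h2, mem_vanishingIdeal_iff] at h1
  push Not at h1
  obtain ⟨x, hx, hxf⟩ := h1
  rw [map_mul, map_prod] at hxf
  simp only [aeval_X] at hxf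
  have hx0 : ∀ i, x i ≠ 0 := fun i => prod_ne_zero_iff.1 (right_ne_zero_of_mul hxf) i (mem_univ i)
  have hf0 : aeval x f ≠ 0 := left_ne_zero_of_mul hxf
  let E := IntermediateField.adjoin K (Set.range x)
  have hfd : FiniteDimensional K E := IntermediateField.finiteDimensional_adjoin
    fun z _ => (Algebra.IsAlgebraic.isAlgebraic z).isIntegral
  have hnf : NumberField E := NumberField.of_module_finite K E
  have hmem : ∀ i, x i ∈ E := fun i => IntermediateField.subset_adjoin K _ ⟨i, rfl⟩
  let y : Fin N → E := fun i => ⟨x i, hmem i⟩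
  have hxy : x = fun i => E.val (y i) := rfl
  have hval : ∀ g : MvPolynomial (Fin N) K, aeval x g = E.val (aeval y g) := by
    intro g
    rw [hxy, ← MvPolynomial.comp_aeval_apply]
  refine ⟨E, inferInstance, hnf, inferInstance, y, ?_, ?_, ?_⟩
  · intro i h
    exact hx0 i (congrArg Subtype.val h)
  · intro g hg
    have := hx g hg
    rw [hval, map_eq_zero] at this
    exact this
  · intro h
    rw [hval, h, map_zero] at hf0
    exact hf0 rfl

variable {L : Type} [Field L] [NumberField L] [Algebra K L]

/-- stability at the points over a number field -/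
lemma stable_at {I : Ideal (MvPolynomial (Fin N) K)} {w : Fin N → ℤ} (h : StableUnder I w)
    {x : Fin N → L} (hx : x ∈ zeroLocus L I) (hx0 : ∀ i, x i ≠ 0) {t : L} (ht : t ≠ 0) :
    (fun i => t ^ w i * x i) ∈ zeroLocus L I := by
  haveI : FiniteDimensional K L := Module.Finite.of_restrictScalars_finite ℚ K L
  let σ : L →ₐ[K] AlgebraicClosure K := IsAlgClosed.lift
  intro g hg
  have h1 := h (fun i => σ (x i)) (by
    intro g hg
    rw [← MvPolynomial.comp_aeval_apply, hx g hg, map_zero])
    (fun i => by rw [ne_eq, map_eq_zero]; exact hx0 i) (σ t) (by rw [ne_eq, map_eq_zero]; exact ht) g hg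
  have e : (fun i => σ t ^ w i * σ (x i)) = fun i => σ (t ^ w i * x i) := by
    ext i
    rw [map_mul, map_zpow₀]
  rw [e, ← MvPolynomial.comp_aeval_apply, map_eq_zero] at h1
  exact h1

/-- finitely many parameters are excluded -/
lemma few_zeros (f : MvPolynomial (Fin N) K) {x : Fin N → L} (hf : aeval x f ≠ 0) (w : Fin N → ℤ) :
    ∃ D : Finset L, ∀ t : L, t ≠ 0 → aeval (fun i => t ^ w i * x i) f = 0 → t ∈ D := by
  set c : ℤ → L := fun k => aeval x (part f (f.support.filter fun m => wt w m = k)) with hc
  set s := f.support.image (wt w) with hs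
  obtain ⟨b, hb⟩ : ∃ b : ℤ, ∀ k ∈ s, 0 ≤ k + b := by
    refine ⟨∑ k ∈ s, |k|, fun k hk => ?_⟩
    have := single_le_sum (f := fun k : ℤ => |k|) (fun _ _ => abs_nonneg _) hk
    have h2 := neg_abs_le k
    linarith
  set p : Polynomial L := ∑ k ∈ s, Polynomial.C (c k) * Polynomial.X ^ (k + b).toNat with hp
  have hpe : ∀ t : L, t ≠ 0 → p.eval t = t ^ b * aeval (fun i => t ^ w i * x i) f := by
    intro t ht
    rw [aeval_scale f x w ht, mul_sum, hp, Polynomial.eval_finset_sum]
    apply sum_congr rfl
    intro k hk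
    rw [Polynomial.eval_mul, Polynomial.eval_C, Polynomial.eval_pow, Polynomial.eval_X,
      ← zpow_natCast, Int.toNat_of_nonneg (hb k hk), zpow_add₀ ht]
    ring
  have hp0 : p ≠ 0 := by
    intro h
    have h1 := hpe 1 one_ne_zero
    rw [h] at h1
    simp only [one_zpow, one_mul, Polynomial.eval_zero] at h1
    exact hf h1.symm
  refine ⟨p.roots.toFinset, fun t ht h => ?_⟩
  rw [Multiset.mem_toFinset, Polynomial.mem_roots hp0, Polynomial.IsRoot.def, hpe t ht, h, mul_zero]

end points

end Pool.Agent.H84.VA
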