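import Mathlib
import Pool.Agent.H84.VA.E

/-!
# The lower bound for stable sets
-/

set_option autoImplicit false
set_option linter.unusedSectionVars false

open MvPolynomial NumberField Height Finset
open scoped Classical

namespace Pool.Agent.H84.VA

open Pool.Agent.H57R3.VJ Pool.Agent.H84.VH

variable {L : Type} [Field L] [NumberField L] {N : ℕ}

lemma prodNN_le_height {u : L} (hu : u ≠ 0) (Z : Finset (FinitePlace L)) (hZ : ∀ v ∈ Z, v u < 1) :
    ∏ v ∈ Z, NN v ≤ mulHeight₁ u := by
  have h6 := prod_le_height (inv_ne_zero hu) Z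
  rw [mulHeight₁_inv] at h6
  refine le_trans (prod_le_prod (fun v _ => (NN_pos v).le) fun v hv => ?_) h6
  have h7 := gain v hu one_ne_zero (by rw [map_one]; exact hZ v hv)
  rw [map_one] at h7
  have h8 : 0 < v u := FinitePlace.pos_iff.2 hu
  refine le_trans ?_ (le_max_left _ _)
  rw [map_inv₀, le_inv_comm₀ (NN_pos v) h8, ← one_div, le_div_iff₀ (NN_pos v), mul_comm]
  exact h7

/-- the counting function at the translates of a point by an integral element -/
lemma N1_scale (S : Finset (FinitePlace L)) {x : Fin N → L} (hx : ∀ i, x i ≠ 0) (w : Fin N → ℤ)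
    {u : L} (hu : u ≠ 0) (hint : ∀ v : FinitePlace L, v u ≤ 1) :
    N1 S (fun i => u ^ w i * x i) ≤ Real.log (mulHeight₁ u) + N1 S x := by
  have hx' : ∀ i, u ^ w i * x i ≠ 0 := fun i => mul_ne_zero (zpow_ne_zero _ hu) (hx i)
  rw [N1_eq S hx', N1_eq S hx]
  set Z := (bad S fun i => u ^ w i * x i).filter fun v => v u < 1 with hZ
  have h1 : (bad S fun i => u ^ w i * x i) ⊆ Z ∪ bad S x := by
    intro v hv
    rw [mem_union]
    by_cases h : v u < 1
    · exact Or.inl (mem_filter.2 ⟨hv, h⟩)
    · right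
      have h2 : v u = 1 := le_antisymm (hint v) (not_lt.1 h)
      obtain ⟨g1, i, g2⟩ := (mem_bad hx' v).1 hv
      refine (mem_bad hx v).2 ⟨g1, i, ?_⟩
      rw [map_mul, map_zpow₀, h2, one_zpow, one_mul] at g2
      exact g2
  have h3 : ∑ v ∈ Z, Real.log (NN v) ≤ Real.log (mulHeight₁ u) := by
    rw [← Real.log_prod fun v _ => (NN_pos v).ne']
    exact Real.log_le_log (prod_pos fun v _ => NN_pos v)
      (prodNN_le_height hu Z fun v hv => (mem_filter.1 hv).2)
  calc ∑ v ∈ bad S (fun i => u ^ w i * x i), Real.log (NN v)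
      ≤ ∑ v ∈ Z ∪ bad S x, Real.log (NN v) :=
        sum_le_sum_of_subset_of_nonneg h1 fun v _ _ => log_nonneg' v
    _ ≤ ∑ v ∈ Z, Real.log (NN v) + ∑ v ∈ bad S x, Real.log (NN v) := by
        rw [← sum_union_inter]
        exact le_add_of_nonneg_right (sum_nonneg fun v _ => log_nonneg' v)
    _ ≤ _ := by linarith

/-- the fibres of a power map -/
lemma fibre_pow {k : ℤ} (hk : k ≠ 0) (z : L) (s : Finset L) (hs : ∀ u ∈ s, u ≠ 0 ∧ u ^ k = z) :
    s.card ≤ k.natAbs := by
  have hn : 0 < k.natAbs := Int.natAbs_pos.2 hk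
  obtain ⟨z', hz'⟩ : ∃ z' : L, ∀ u ∈ s, u ^ k.natAbs = z' := by
    rcases Int.natAbs_eq k with h | h
    · refine ⟨z, fun u hu => ?_⟩
      have := (hs u hu).2
      rw [h, zpow_natCast] at this
      exact this
    · refine ⟨z⁻¹, fun u hu => ?_⟩
      have := (hs u hu).2
      rw [h, zpow_neg, zpow_natCast] at this
      rw [← this, inv_inv]
  have h1 : s.val ≤ Polynomial.nthRoots k.natAbs z' := by
    rw [Multiset.le_iff_subset s.nodup]
    intro u hu
    rw [Polynomial.mem_nthRoots hn]
    exact hz' u hu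
  exact (Multiset.card_le_card h1).trans (Polynomial.card_nthRoots _ _)

variable {K : Type} [Field K] [NumberField K] [Algebra K L]

theorem lower {I : Ideal (MvPolynomial (Fin N) K)} {w : Fin N → ℤ} (hw : w ≠ 0)
    (hst : StableUnder I w) (f : MvPolynomial (Fin N) K) {x : Fin N → L} (hx0 : ∀ i, x i ≠ 0)
    (hx : x ∈ zeroLocus L I) (hf : aeval x f ≠ 0) (S : Finset (FinitePlace L)) :
    ∃ m A X0 : ℝ, 0 < m ∧ 1 ≤ X0 ∧ ∀ X : ℝ, X0 ≤ X → ∃ PP : Finset (Fin N → L),
      (∀ y ∈ PP, (∀ i, y i ≠ 0) ∧ y ∈ zeroLocus L I ∧ aeval y f ≠ 0 ∧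
        (∀ i, mulHeight₁ (y i) ≤ X ^ A) ∧ N1 S y ≤ Real.log X) ∧ m * X ≤ PP.card := by
  obtain ⟨i0, hi0⟩ := Function.ne_iff.1 hw
  obtain ⟨c, hc, hsize⟩ := bb_size L
  obtain ⟨D, hD⟩ := few_zeros (L := L) f hf w
  set d : ℕ := Module.finrank ℚ L with hd
  have hd0 : 0 < d := Module.finrank_pos
  have hd' : (d : ℝ) ≠ 0 := by exact_mod_cast hd0.ne'
  set E0 : ℝ := Real.exp (N1 S x) with hE0
  have hN0 : 0 ≤ N1 S x := by
    rw [N1_eq S hx0]; exact sum_nonneg fun v _ => log_nonneg' v
  have hE1 : 1 ≤ E0 := Real.one_le_exp hN0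
  set G : ℝ := c ^ d * E0 with hG
  have hc0 : 0 < c := by linarith
  have hG0 : 0 < G := by positivity
  have hcd : 1 ≤ c ^ d := one_le_pow₀ hc
  have hG1 : 1 ≤ G := by
    rw [hG]
    calc (1 : ℝ) = 1 * 1 := by ring
      _ ≤ c ^ d * E0 := mul_le_mul hcd hE1 (by norm_num) (by linarith)
  set n : ℕ := (w i0).natAbs with hn
  have hn0 : 0 < n := Int.natAbs_pos.2 hi0
  have hn' : (0 : ℝ) < n := by exact_mod_cast hn0
  set a : ℕ := ∑ i, (w i).natAbs with ha
  set h0 : ℝ := 1 + ∑ i, mulHeight₁ (x i) with hh0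
  have hh0' : 1 ≤ h0 := by
    have : 0 ≤ ∑ i, mulHeight₁ (x i) := sum_nonneg fun i _ => mulHeight₁_nonneg _
    linarith
  refine ⟨1 / (2 * G * n), a + 1, G + h0 + 2 * G * D.card, by positivity, by
    have : (0 : ℝ) ≤ 2 * G * D.card := by positivity
    linarith, fun X hX => ?_⟩
  have hDc : (0 : ℝ) ≤ 2 * G * D.card := by positivity
  have hX1 : G ≤ X := by linarith
  have hX2 : h0 ≤ X := by linarith
  have hX3 : 2 * G * D.card ≤ X := by linarith
  have hX0 : 0 < X := by linarith
  have hX1' : 1 ≤ X := by linarith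
  set T : ℝ := (X / G) ^ ((1 : ℝ) / d) with hT
  have hXG : 1 ≤ X / G := by rw [le_div_iff₀ hG0]; linarith
  have hT1 : 1 ≤ T := Real.one_le_rpow hXG (by positivity)
  have hTd : T ^ d = X / G := by
    rw [hT, ← Real.rpow_natCast, ← Real.rpow_mul (by positivity), one_div_mul_cancel hd', Real.rpow_one]
  set J : Finset (Ix L → ℕ) := Fintype.piFinset fun _ => range (⌊T⌋₊ + 1) with hJ
  have hJc : X / G ≤ J.card := by
    rw [hJ, Fintype.card_piFinset, Finset.prod_const, card_range, card_univ, card_Ix, ← hTd]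
    push_cast
    exact pow_le_pow_left₀ (by linarith) (Nat.lt_floor_add_one T).le _
  set U : Finset L := J.image fun t => (algebraMap (𝓞 L) L (bb t)) with hU
  have hUc : U.card = J.card := by
    apply card_image_of_injective
    intro t t' h
    exact bb_inj (RingOfIntegers.coe_injective h)
  have hUp : ∀ u ∈ U, u ≠ 0 ∧ (∀ v : FinitePlace L, v u ≤ 1) ∧ mulHeight₁ u ≤ X / E0 := by
    intro u hu
    obtain ⟨t, ht, rfl⟩ := mem_image.1 hu
    refine ⟨bb_ne_zero t, fun v => int_le_one v _, ?_⟩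
    have h1 : ∀ j, (t j : ℝ) ≤ T := by
      intro j
      have := (Fintype.mem_piFinset.1 ht) j
      rw [mem_range] at this
      have h2 : t j ≤ ⌊T⌋₊ := by omega
      exact (Nat.le_floor_iff (by linarith)).1 h2
    have h2 := height_int (K := L) (b := bb t) (T := c * T) (by nlinarith)
      fun w' => hsize T t hT1 h1 w'
    refine h2.trans (le_of_eq ?_)
    rw [mul_pow, ← hd, hTd, hG]
    field_simp
  set U' := U \ D with hU'
  have hU'c : X / G - D.card ≤ U'.card := by
    have h1 : U.card ≤ (U \ D).card + D.card := by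
      have := le_card_sdiff D U
      omega
    have h2 : (U.card : ℝ) ≤ U'.card + D.card := by exact_mod_cast h1
    rw [hUc] at h2
    linarith
  refine ⟨U'.image fun u => fun i => u ^ w i * x i, ?_, ?_⟩
  · intro y hy
    obtain ⟨u, hu, rfl⟩ := mem_image.1 hy
    rw [hU', Finset.mem_sdiff] at hu
    obtain ⟨h1, h2, h3⟩ := hUp u hu.1
    have hXE : X / E0 ≤ X := div_le_self hX0.le hE1
    refine ⟨fun i => mul_ne_zero (zpow_ne_zero _ h1) (hx0 i), stable_at hst hx hx0 h1, ?_, ?_, ?_⟩
    · intro h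
      exact hu.2 (hD u h1 h)
    · intro i
      calc mulHeight₁ (u ^ w i * x i) ≤ mulHeight₁ (u ^ w i) * mulHeight₁ (x i) := mulHeight₁_mul_le _ _
        _ ≤ X ^ a * X := by
            apply mul_le_mul _ _ (mulHeight₁_nonneg _) (by positivity)
            · rw [mulHeight₁_zpow]
              calc mulHeight₁ u ^ (w i).natAbs ≤ X ^ (w i).natAbs :=
                    pow_le_pow_left₀ (mulHeight₁_nonneg _) (h3.trans hXE) _
                _ ≤ X ^ a := pow_le_pow_right₀ hX1'
                    (single_le_sum (f := fun i => (w i).natAbs) (fun _ _ => Nat.zero_le _) (mem_univ i))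
            · have := single_le_sum (f := fun i => mulHeight₁ (x i))
                (fun i _ => mulHeight₁_nonneg (x i)) (mem_univ i)
              linarith
        _ = X ^ ((a : ℝ) + 1) := by
            rw [← pow_succ, ← Real.rpow_natCast]
            push_cast
            rfl
    · refine (N1_scale S hx0 w h1 h2).trans ?_
      have h4 : Real.log (mulHeight₁ u) ≤ Real.log X - Real.log E0 := by
        rw [← Real.log_div hX0.ne' (by positivity)]
        exact Real.log_le_log (mulHeight₁_pos u) h3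
      have h5 : Real.log E0 = N1 S x := Real.log_exp _
      linarith
  · have h1 : U'.card ≤ n * (U'.image fun u => fun i => u ^ w i * x i).card := by
      apply card_le_mul_card_image
      intro y _
      apply fibre_pow hi0 (y i0 / x i0)
      intro u hu
      obtain ⟨hu1, hu2⟩ := mem_filter.1 hu
      rw [hU', Finset.mem_sdiff] at hu1
      refine ⟨(hUp u hu1.1).1, ?_⟩
      rw [← hu2]
      simp only
      rw [mul_div_assoc, div_self (hx0 i0), mul_one]
    have h2 : (U'.card : ℝ) ≤ n * ((U'.image fun u => fun i => u ^ w i * x i).card : ℝ) := by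
      exact_mod_cast h1
    have h3 : X / (2 * G) ≤ U'.card := by
      refine le_trans ?_ hU'c
      have h4 : (D.card : ℝ) ≤ X / (2 * G) := by
        rw [le_div_iff₀ (by positivity)]
        linarith
      have h5 : X / G = X / (2 * G) + X / (2 * G) := by field_simp; ring
      linarith
    have h6 : 1 / (2 * G * n) * X = X / (2 * G) / n := by field_simp
    rw [h6, div_le_iff₀ hn']
    linarith

end Pool.Agent.H84.VA
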